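import Pool.Agent.N783.CF.Stm

/-! Project CF, leaf TR2 (helper78): double transitivity. -/

set_option autoImplicit false
set_option linter.all false

open Polynomial NumberField
open scoped Classical

namespace Pool.Agent.N78.CF

open Pool.Agent.N783.PF (IsGen fF)
open Pool.Agent.N783.CF (S_TR2)

/-- embeddings extend to automorphisms -/
theorem lift_emb {F : Type} [Field F] (L : IntermediateField F (AlgebraicClosure F))
    (χ : L →ₐ[F] AlgebraicClosure F) :
    ∃ σ : AlgebraicClosure F ≃ₐ[F] AlgebraicClosure F, ∀ x : L, σ (x : AlgebraicClosure F) = χ x := by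
  have hN : Normal F (AlgebraicClosure F) := inferInstance
  let φ : AlgebraicClosure F →ₐ[F] AlgebraicClosure F := χ.liftNormal (AlgebraicClosure F)
  refine ⟨AlgEquiv.ofBijective φ (AlgHom.normal_bijective F _ _ φ), fun x => ?_⟩
  exact χ.liftNormal_commutes (AlgebraicClosure F) x

/-- embeddings are determined by the value at `θ` -/
theorem ext_gen {F : Type} [Field F] [NumberField F] {g : ℕ} {f : (𝓞 F)[X]}
    (L : IntermediateField F (AlgebraicClosure F)) [NumberField L] {θ : L} (h : IsGen g f θ)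
    {φ ψ : L →ₐ[F] AlgebraicClosure F} (he : φ θ = ψ θ) : φ = ψ := by
  refine AlgHom.ext fun x => ?_
  obtain ⟨c, rfl⟩ := h.gen x
  simp only [map_sum, map_mul, map_pow, AlgHom.commutes, he]

theorem t_TR2 : S_TR2 := by
  intro g F _ _ L _ f θ k hgen hirr hk hkirr φ ψ φ' ψ' hne hne'
  obtain ⟨τφ, hτφ⟩ := lift_emb L φ
  obtain ⟨τ, hτ⟩ := lift_emb L φ'
  -- the first automorphism
  obtain ⟨σ₁, hσ₁⟩ : ∃ σ₁ : AlgebraicClosure F ≃ₐ[F] AlgebraicClosure F, ∀ x : L,
      σ₁ (φ x) = φ' x := by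
    refine ⟨τφ.symm.trans τ, fun x => ?_⟩
    rw [← hτφ, AlgEquiv.trans_apply, AlgEquiv.symm_apply_apply, hτ]
  have hψ₁ : σ₁ (ψ θ) ≠ φ' θ := by
    intro h
    rw [← hσ₁] at h
    exact hne (ext_gen L hgen (σ₁.injective h)).symm
  have hψ' : ψ' θ ≠ φ' θ := fun h => hne' (ext_gen L hgen h).symm
  -- roots of `k`
  have hroot : ∀ z : AlgebraicClosure F, aeval z (fF f) = 0 → z ≠ φ' θ →
      aeval (τ.symm z) k = 0 := by
    intro z hz hzne
    have h1 : aeval (τ.symm z) (fF f) = 0 := by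
      have h2 := congrArg τ.symm hz
      rw [map_zero] at h2
      rw [← h2]
      exact (aeval_algHom_apply τ.symm.toAlgHom z (fF f))
    have h3 : aeval (τ.symm z) ((fF f).map (algebraMap F L)) = 0 := by
      rw [aeval_map_algebraMap]
      exact h1
    rw [hk, map_mul] at h3
    rcases mul_eq_zero.1 h3 with h4 | h4
    · exfalso
      rw [map_sub, aeval_X, aeval_C, sub_eq_zero] at h4
      apply hzne
      have h5 := congrArg τ h4
      rw [AlgEquiv.apply_symm_apply] at h5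
      rw [h5]
      exact hτ θ
    · exact h4
  have hz1 : aeval (σ₁ (ψ θ)) (fF f) = 0 := by
    have h1 : aeval (ψ θ) (fF f) = 0 := by
      rw [aeval_algHom_apply, hgen.root, map_zero]
    have h2 : aeval (σ₁ (ψ θ)) (fF f) = σ₁ (aeval (ψ θ) (fF f)) :=
      aeval_algHom_apply σ₁.toAlgHom (ψ θ) (fF f)
    rw [h2, h1, map_zero]
  have hz2 : aeval (ψ' θ) (fF f) = 0 := by
    rw [aeval_algHom_apply, hgen.root, map_zero]
  have ha := hroot _ hz1 hψ₁
  have hb := hroot _ hz2 hψ'
  have hconj : IsConjRoot L (τ.symm (σ₁ (ψ θ))) (τ.symm (ψ' θ)) := by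
    rw [isConjRoot_def, ← minpoly.eq_of_irreducible hkirr ha, ← minpoly.eq_of_irreducible hkirr hb]
  have hN : Normal L (AlgebraicClosure F) := Normal.tower_top_of_normal F L (AlgebraicClosure F)
  obtain ⟨ρ, hρ⟩ := hconj.symm.exists_algEquiv
  let ρF : AlgebraicClosure F ≃ₐ[F] AlgebraicClosure F := ρ.restrictScalars F
  have hρF : ∀ z, ρF z = ρ z := fun z => rfl
  -- the second automorphism
  let σ₂ : AlgebraicClosure F ≃ₐ[F] AlgebraicClosure F := (τ.symm.trans ρF).trans τ
  have h21 : ∀ x : L, σ₂ (φ' x) = φ' x := by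
    intro x
    show τ (ρ (τ.symm (φ' x))) = φ' x
    rw [← hτ, AlgEquiv.symm_apply_apply]
    have : ρ ((x : L) : AlgebraicClosure F) = (x : AlgebraicClosure F) := ρ.commutes x
    rw [this]
  have h22 : σ₂ (σ₁ (ψ θ)) = ψ' θ := by
    show τ (ρ (τ.symm (σ₁ (ψ θ)))) = ψ' θ
    rw [hρ, AlgEquiv.apply_symm_apply]
  refine ⟨σ₁.trans σ₂, ?_, ?_⟩
  · refine AlgHom.ext fun x => ?_
    show σ₂ (σ₁ (φ x)) = φ' x
    rw [hσ₁, h21]
  · refine ext_gen L hgen ?_
    exact h22

end Pool.Agent.N78.CF
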